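import Mathlib
import Pool.Agent.Lib.MP_f75418_nt.FF.Final

/-!
# Antipalindromic numbers in base 3 with at most four prime factors

There is `c > 0` such that for all large `n` at least a proportion `c / n` of the antipalindromic
numbers with exactly `2n+1` digits in base `3` have at most four prime factors, counted with
multiplicity, all of them at least `m ^ (1/18)`. In particular infinitely many antipalindromic
numbers in base `3` have at most four prime factors.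
-/

open Finset

namespace Pool.Agent.Results.MP_f75418_nt.FourFactors

open Pool.Agent.Lib.MP_f75418_nt

/-- `m` is antipalindromic in base `3`: digits `d` and `2 - d` are exchanged by the reversal. -/
def Antipal (m : ℕ) : Prop :=
  (Nat.digits 3 m).reverse = (Nat.digits 3 m).map (fun d => 2 - d)

lemma set_eq (n : ℕ) : {m : ℕ | 3 ^ (2 * n) ≤ m ∧ m < 3 ^ (2 * n + 1) ∧ Antipal m} =
    ((antipals n : Finset ℕ) : Set ℕ) := by
  ext m
  rw [Set.mem_ofPred_eq, Finset.mem_coe, mem_antipals]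
  unfold Antipal IsAntipal
  tauto

theorem main : ∃ c : ℝ, 0 < c ∧ ∃ n₀ : ℕ, ∀ n : ℕ, n₀ ≤ n →
    c / n * (Set.ncard {m : ℕ | 3 ^ (2 * n) ≤ m ∧ m < 3 ^ (2 * n + 1) ∧ Antipal m} : ℝ) ≤
    (Set.ncard {m : ℕ | 3 ^ (2 * n) ≤ m ∧ m < 3 ^ (2 * n + 1) ∧ Antipal m ∧
      m.primeFactorsList.length ≤ 4 ∧
      ∀ p : ℕ, p.Prime → p ∣ m → (m : ℝ) ^ (1 / 18 : ℝ) ≤ p} : ℝ) := by
  classical
  obtain ⟨c, hc, n₀, h⟩ := FF.four_factors
  refine ⟨c / 3, by positivity, n₀ + 2, ?_⟩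
  intro n hn
  obtain ⟨N, rfl⟩ : ∃ N, n = N + 1 := ⟨n - 1, by omega⟩
  have hN1 : 1 ≤ N := by omega
  have hNr : (1 : ℝ) ≤ N := by exact_mod_cast hN1
  have h1 := h N (by omega)
  rw [set_eq, Set.ncard_coe_finset]
  have hcard : ((antipals (N + 1)).card : ℝ) ≤ 3 ^ (N + 1) := by
    exact_mod_cast card_antipals_le (N + 1)
  -- the good ones
  set F := (Finset.univ : Finset (Fin N → Fin 3)).filter (fun a =>
      ArithmeticFunction.cardFactors (av N a) ≤ 4 ∧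
      ∀ p, p.Prime → p ∣ av N a → ((av N a : ℕ) : ℝ) ^ (1 / 18 : ℝ) ≤ p) with hF
  have hGcard : ((F.image (av N)).card : ℝ) = (F.card : ℝ) := by
    rw [Finset.card_image_of_injective _ (av_injective N)]
  have hsub : ((F.image (av N) : Finset ℕ) : Set ℕ) ⊆
      {m : ℕ | 3 ^ (2 * (N + 1)) ≤ m ∧ m < 3 ^ (2 * (N + 1) + 1) ∧ Antipal m ∧
        m.primeFactorsList.length ≤ 4 ∧
        ∀ p : ℕ, p.Prime → p ∣ m → (m : ℝ) ^ (1 / 18 : ℝ) ≤ p} := by
    intro m hm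
    rw [Finset.mem_coe, Finset.mem_image] at hm
    obtain ⟨a, ha, rfl⟩ := hm
    rw [hF, Finset.mem_filter] at ha
    have hmem := mem_antipals.mp (av_mem N a)
    refine ⟨hmem.1.1, hmem.1.2, hmem.2, ?_, ha.2.2⟩
    rw [← ArithmeticFunction.cardFactors_apply]
    exact ha.2.1
  have hfin : Set.Finite {m : ℕ | 3 ^ (2 * (N + 1)) ≤ m ∧ m < 3 ^ (2 * (N + 1) + 1) ∧ Antipal m ∧
      m.primeFactorsList.length ≤ 4 ∧
      ∀ p : ℕ, p.Prime → p ∣ m → (m : ℝ) ^ (1 / 18 : ℝ) ≤ p} :=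
    Set.Finite.subset (Set.finite_Iio (3 ^ (2 * (N + 1) + 1))) fun m hm => hm.2.1
  have h2 : (F.card : ℝ) ≤ (Set.ncard {m : ℕ | 3 ^ (2 * (N + 1)) ≤ m ∧
      m < 3 ^ (2 * (N + 1) + 1) ∧ Antipal m ∧ m.primeFactorsList.length ≤ 4 ∧
      ∀ p : ℕ, p.Prime → p ∣ m → (m : ℝ) ^ (1 / 18 : ℝ) ≤ p} : ℝ) := by
    have h3 := Set.ncard_le_ncard hsub hfin
    rw [Set.ncard_coe_finset] at h3
    rw [← hGcard]
    exact_mod_cast h3
  refine le_trans ?_ h2
  refine le_trans ?_ h1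
  calc c / 3 / ((N + 1 : ℕ) : ℝ) * ((antipals (N + 1)).card : ℝ)
      ≤ c / 3 / ((N + 1 : ℕ) : ℝ) * 3 ^ (N + 1) := mul_le_mul_of_nonneg_left hcard (by positivity)
    _ ≤ c / 3 / N * 3 ^ (N + 1) := by
        refine mul_le_mul_of_nonneg_right ?_ (by positivity)
        apply div_le_div_of_nonneg_left (by positivity) (by linarith)
        push_cast
        linarith
    _ = c * 3 ^ N / N := by
        rw [pow_succ]
        ring

/-- **Main result.** -/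
theorem result : ∃ c : ℝ, 0 < c ∧ ∃ n₀ : ℕ,
    (∀ n : ℕ, n₀ ≤ n →
    c / n * (Set.ncard {m : ℕ | 3 ^ (2 * n) ≤ m ∧ m < 3 ^ (2 * n + 1) ∧ Antipal m} : ℝ) ≤
    (Set.ncard {m : ℕ | 3 ^ (2 * n) ≤ m ∧ m < 3 ^ (2 * n + 1) ∧ Antipal m ∧
      m.primeFactorsList.length ≤ 4 ∧
      ∀ p : ℕ, p.Prime → p ∣ m → (m : ℝ) ^ (1 / 18 : ℝ) ≤ p} : ℝ)) ∧
    Set.Infinite {m : ℕ | Antipal m ∧ m.primeFactorsList.length ≤ 4} := by
  obtain ⟨c, hc, n₀, h⟩ := main
  refine ⟨c, hc, n₀, h, ?_⟩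
  rw [Set.infinite_iff_exists_gt]
  intro k
  set n := n₀ + k + 1 with hn
  have h1 := h n (by omega)
  rw [set_eq, Set.ncard_coe_finset] at h1
  have h2 := card_antipals_ge n (by omega)
  have h3 : (0 : ℝ) < ((antipals n).card : ℝ) := by
    have : 0 < 3 ^ (n - 1) := by positivity
    exact_mod_cast lt_of_lt_of_le this h2
  have hn0 : (0 : ℝ) < n := by
    have : 0 < n := by omega
    exact_mod_cast this
  have h4 : (0 : ℝ) < c / n * ((antipals n).card : ℝ) := by positivity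
  have h5 := lt_of_lt_of_le h4 h1
  have h6 := Nat.cast_pos.mp h5
  obtain ⟨m, hm⟩ := Set.nonempty_of_ncard_ne_zero h6.ne'
  refine ⟨m, ⟨hm.2.2.1, hm.2.2.2.1⟩, ?_⟩
  have h7 : n < 3 ^ n := Nat.lt_pow_self (by norm_num)
  have h8 : 3 ^ n ≤ 3 ^ (2 * n) := Nat.pow_le_pow_right (by norm_num) (by omega)
  have h9 := hm.1
  omega

end Pool.Agent.Results.MP_f75418_nt.FourFactors
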