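import Mathlib
import Pool.Agent.Lib.MP_f75418_nt.FF.Classes

/-!
# Antipalindromic numbers in base 3 have level of distribution `x^0.2639`

The antipalindromic numbers with exactly `2n+1` digits in base `3` (numbers of size `x = 9^n`) are,
on average over all moduli `d ≤ x^0.2639` coprime to `6`, well distributed in all residue classes
modulo `d`: the sum over these moduli of the largest error is at most `C exp (-√n/200)` times their
number.
-/

open Finset

namespace Pool.Agent.Results.MP_f75418_nt.LevelOfDistribution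

open Pool.Agent.Lib.MP_f75418_nt

/-- `m` is antipalindromic in base `3`: digits `d` and `2 - d` are exchanged by the reversal. -/
def Antipal (m : ℕ) : Prop :=
  (Nat.digits 3 m).reverse = (Nat.digits 3 m).map (fun d => 2 - d)

lemma set_eq (n : ℕ) : {m : ℕ | 3 ^ (2 * n) ≤ m ∧ m < 3 ^ (2 * n + 1) ∧ Antipal m} =
    ((antipals n : Finset ℕ) : Set ℕ) := by
  ext m
  rw [Set.mem_ofPred_eq, Finset.mem_coe, mem_antipals]
  unfold Antipal IsAntipal
  tauto

lemma set_eq_class (n d a : ℕ) :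
    {m : ℕ | 3 ^ (2 * n) ≤ m ∧ m < 3 ^ (2 * n + 1) ∧ Antipal m ∧ m ≡ a [MOD d]} =
    (((antipals n).filter (fun m => m ≡ a [MOD d]) : Finset ℕ) : Set ℕ) := by
  ext m
  rw [Set.mem_ofPred_eq, Finset.mem_coe, Finset.mem_filter, mem_antipals]
  unfold Antipal IsAntipal
  tauto

/-- **Main result.** -/
theorem result : ∃ (C : ℝ) (n₀ : ℕ), 0 < C ∧ ∀ n : ℕ, n₀ ≤ n → ∀ D : ℕ,
    (D : ℝ) ≤ ((9 : ℝ) ^ n) ^ (2639 / 10000 : ℝ) → ∀ a : ℕ → ℕ,
    ∑ d ∈ (Finset.Icc 1 D).filter (fun d => Nat.Coprime d 6),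
      |(Set.ncard {m : ℕ | 3 ^ (2 * n) ≤ m ∧ m < 3 ^ (2 * n + 1) ∧ Antipal m ∧
          m ≡ a d [MOD d]} : ℝ) -
        (Set.ncard {m : ℕ | 3 ^ (2 * n) ≤ m ∧ m < 3 ^ (2 * n + 1) ∧ Antipal m} : ℝ) / d| ≤
      C * (Set.ncard {m : ℕ | 3 ^ (2 * n) ≤ m ∧ m < 3 ^ (2 * n + 1) ∧ Antipal m} : ℝ) *
        Real.exp (-(Real.sqrt n / 200)) := by
  obtain ⟨C, hC, h⟩ := FF.level_all
  refine ⟨C * Real.exp 1, 4000, by positivity, ?_⟩
  intro n hn D hD a
  obtain ⟨N, rfl⟩ : ∃ N, n = N + 1 := ⟨n - 1, by omega⟩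
  have hNr : (3999 : ℝ) ≤ N := by exact_mod_cast (show 3999 ≤ N by omega)
  clear hn
  -- the size of `D`
  have hD' : (D : ℝ) ≤ Real.exp (29 / 50 * N) := by
    refine hD.trans ?_
    have h1 : Real.log 3 < 1.0986122888 := Real.log_three_lt_d9
    have h2 : Real.log ((9 : ℝ) ^ (N + 1)) = (N + 1) * (2 * Real.log 3) := by
      rw [Real.log_pow, show (9 : ℝ) = 3 ^ 2 by norm_num, Real.log_pow]
      push_cast
      ring
    rw [Real.rpow_def_of_pos (by positivity), h2, Real.exp_le_exp]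
    nlinarith
  rw [set_eq, Set.ncard_coe_finset, FF.card_antipals]
  have e1 : ∀ d ∈ (Finset.Icc 1 D).filter (fun d => Nat.Coprime d 6),
      |(Set.ncard {m : ℕ | 3 ^ (2 * (N + 1)) ≤ m ∧ m < 3 ^ (2 * (N + 1) + 1) ∧ Antipal m ∧
          m ≡ a d [MOD d]} : ℝ) - ((2 * 3 ^ N : ℕ) : ℝ) / d| ≤
      |(FF.Ak N d (d - a d % d) : ℝ) - 3 ^ N / d| +
        |(FF.Ak N d (3 ^ (2 * (N + 1)) - 1 + (d - a d % d)) : ℝ) - 3 ^ N / d| := by
    intro d hd
    rw [Finset.mem_filter, Finset.mem_Icc] at hd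
    rw [set_eq_class, Set.ncard_coe_finset, FF.card_class N d (by omega)]
    refine le_trans (le_of_eq ?_) (abs_add_le _ _)
    congr 1
    push_cast
    ring
  refine (Finset.sum_le_sum e1).trans ?_
  rw [Finset.sum_add_distrib]
  have h1 := h N D hD' (fun d => d - a d % d)
  have h2 := h N D hD' (fun d => 3 ^ (2 * (N + 1)) - 1 + (d - a d % d))
  have h3 : Real.exp (-(Real.sqrt N / 200)) ≤
      Real.exp 1 * Real.exp (-(Real.sqrt ((N + 1 : ℕ) : ℝ) / 200)) := by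
    rw [← Real.exp_add, Real.exp_le_exp]
    have h4 : Real.sqrt ((N + 1 : ℕ) : ℝ) ≤ Real.sqrt N + 1 := by
      rw [Real.sqrt_le_left (by positivity)]
      have h5 := Real.sq_sqrt (show (0 : ℝ) ≤ N from Nat.cast_nonneg _)
      have h6 := Real.sqrt_nonneg (N : ℝ)
      push_cast
      nlinarith
    linarith
  have h4 : C * 3 ^ N * Real.exp (-(Real.sqrt N / 200)) ≤
      C * 3 ^ N * (Real.exp 1 * Real.exp (-(Real.sqrt ((N + 1 : ℕ) : ℝ) / 200))) :=
    mul_le_mul_of_nonneg_left h3 (by positivity)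
  push_cast at h4 ⊢
  linarith

end Pool.Agent.Results.MP_f75418_nt.LevelOfDistribution
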