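import Mathlib
import Pool.Agent.Lib.MP_f75418_nt.AP.Final

/-!
# Antipalindromic primes in base 3: an upper bound of the conjectured order of magnitude

Among the antipalindromic numbers with exactly `2n+1` digits in base `3`, the proportion of primes
is at most `C / n`.
-/

open Finset

namespace Pool.Agent.Results.MP_f75418_nt.PrimesOrder

open Pool.Agent.Lib.MP_f75418_nt

/-- **Main result.** There is `C > 0` such that for every `n ≥ 1`, among the antipalindromic numbers
with exactly `2n+1` digits in base `3` at most a proportion `C / n` are prime. -/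
theorem result : ∃ C : ℝ, 0 < C ∧ ∀ n : ℕ, 1 ≤ n →
    (((Finset.Ico (3 ^ (2 * n)) (3 ^ (2 * n + 1))).filter (fun m =>
      (Nat.digits 3 m).reverse = (Nat.digits 3 m).map (fun d => 2 - d) ∧ m.Prime)).card : ℝ) ≤
    C / n * (((Finset.Ico (3 ^ (2 * n)) (3 ^ (2 * n + 1))).filter (fun m =>
      (Nat.digits 3 m).reverse = (Nat.digits 3 m).map (fun d => 2 - d))).card : ℝ) := by
  classical
  obtain ⟨b, hb, c, C, hc, hC, n₀, h⟩ := counts
  refine ⟨2 * C + n₀ + 2, by positivity, fun n hn => ?_⟩
  have h1 : (Finset.Ico (3 ^ (2 * n)) (3 ^ (2 * n + 1))).filter (fun m =>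
      (Nat.digits 3 m).reverse = (Nat.digits 3 m).map (fun d => 2 - d) ∧ m.Prime) =
      (antipals n).filter Nat.Prime := by
    ext m
    simp only [Finset.mem_filter, Finset.mem_Ico, mem_antipals, IsAntipal]
    tauto
  have h2 : (Finset.Ico (3 ^ (2 * n)) (3 ^ (2 * n + 1))).filter (fun m =>
      (Nat.digits 3 m).reverse = (Nat.digits 3 m).map (fun d => 2 - d)) = antipals n := by
    ext m
    simp only [Finset.mem_filter, Finset.mem_Ico, mem_antipals, IsAntipal]
  rw [h1, h2]
  have hnr : (1 : ℝ) ≤ n := by exact_mod_cast hn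
  have hn0 : (0 : ℝ) < n := by linarith
  have hA0 : (0 : ℝ) ≤ ((antipals n).card : ℝ) := Nat.cast_nonneg _
  rcases Nat.lt_or_ge n (n₀ + 2) with hlt | hge
  · have h3 : (((antipals n).filter Nat.Prime).card : ℝ) ≤ ((antipals n).card : ℝ) := by
      exact_mod_cast Finset.card_filter_le _ _
    refine h3.trans ?_
    have h4 : (1 : ℝ) ≤ (2 * C + n₀ + 2) / n := by
      rw [le_div_iff₀ hn0, one_mul]
      have : (n : ℝ) ≤ n₀ + 2 := by exact_mod_cast hlt.le
      linarith
    calc ((antipals n).card : ℝ) = 1 * ((antipals n).card : ℝ) := (one_mul _).symm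
      _ ≤ _ := mul_le_mul_of_nonneg_right h4 hA0
  · obtain ⟨N, rfl⟩ : ∃ N, n = N + 1 := ⟨n - 1, by omega⟩
    have hN1 : 1 ≤ N := by omega
    have hNr : (1 : ℝ) ≤ N := by exact_mod_cast hN1
    have h3 := (h N (by omega)).2
    have h4 : (3 : ℝ) ^ N ≤ ((antipals (N + 1)).card : ℝ) := by
      have := card_antipals_ge (N + 1) (by omega)
      rw [Nat.add_sub_cancel] at this
      exact_mod_cast this
    refine h3.trans ?_
    have h5 : (n₀ : ℝ) ≥ 0 := Nat.cast_nonneg _
    calc C * 3 ^ N / N ≤ 2 * C / ((N + 1 : ℕ) : ℝ) * 3 ^ N := by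
          rw [div_mul_eq_mul_div, div_le_div_iff₀ (by linarith) hn0]
          push_cast
          have : 0 ≤ C * 3 ^ N := by positivity
          nlinarith
      _ ≤ (2 * C + n₀ + 2) / ((N + 1 : ℕ) : ℝ) * ((antipals (N + 1)).card : ℝ) := by
          refine mul_le_mul ?_ h4 (by positivity) (by positivity)
          apply div_le_div_of_nonneg_right _ hn0.le
          linarith

end Pool.Agent.Results.MP_f75418_nt.PrimesOrder
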